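import Mathlib

open MeasureTheory Filter Topology Set
open scoped ENNReal NNReal ContDiff InnerProductSpace Laplacian

namespace Pool.Agent.Results.MP_c070b6_an.LevyGromovFails

/-- A smooth domain in the plane: a nonempty connected open set which near each of its boundary
points is the positivity set of a smooth function with nonvanishing differential, the boundary
being the zero set. -/
def IsSmoothDomain (Ω : Set ℂ) : Prop :=
  IsOpen Ω ∧ IsConnected Ω ∧ ∀ p ∈ frontier Ω, ∃ V : Set ℂ, IsOpen V ∧ p ∈ V ∧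
    ∃ φ : ℂ → ℝ, ContDiff ℝ ∞ φ ∧ (∀ z ∈ V, fderiv ℝ φ z ≠ 0) ∧
      (∀ z ∈ V, z ∈ Ω ↔ 0 < φ z) ∧ (∀ z ∈ V, z ∈ frontier Ω ↔ φ z = 0)

/-- The area of `E` for the conformal metric `e^{2u} |dz|²`. -/
noncomputable def area (u : ℂ → ℝ) (E : Set ℂ) : ℝ≥0∞ :=
  ∫⁻ z in E, ENNReal.ofReal (Real.exp (2 * u z))

/-- The length of the boundary of `Ω` for the conformal metric `e^{2u} |dz|²`. -/
noncomputable def boundaryLength (u : ℂ → ℝ) (Ω : Set ℂ) : ℝ≥0∞ :=
  ∫⁻ z in frontier Ω, ENNReal.ofReal (Real.exp (u z)) ∂(Measure.hausdorffMeasure 1)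

/-- The supersolution. -/
noncomputable def sol (ε : ℝ) (z : ℂ) : ℝ := -Real.log (Real.cosh z.re) - ε * z.im ^ 2

lemma sol_contDiff (ε : ℝ) : ContDiff ℝ ∞ (sol ε) := by
  unfold sol
  have h1 : ContDiff ℝ ∞ fun z : ℂ => z.re := Complex.reCLM.contDiff
  have h2 : ContDiff ℝ ∞ fun z : ℂ => z.im := Complex.imCLM.contDiff
  have h3 : ContDiff ℝ ∞ fun z : ℂ => Real.log (Real.cosh z.re) :=
    (Real.contDiff_cosh.comp h1).log fun z => (Real.cosh_pos _).ne'
  exact h3.neg.sub (contDiff_const.mul (h2.pow 2))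

lemma sol_hasFDerivAt (ε : ℝ) (z : ℂ) :
    HasFDerivAt (sol ε) ((-(Real.sinh z.re / Real.cosh z.re)) • Complex.reCLM +
      (-(2 * ε * z.im)) • Complex.imCLM) z := by
  have h1 : HasFDerivAt (fun z : ℂ => z.re) Complex.reCLM z := Complex.reCLM.hasFDerivAt
  have h2 : HasFDerivAt (fun z : ℂ => z.im) Complex.imCLM z := Complex.imCLM.hasFDerivAt
  have h3 : HasDerivAt (fun x : ℝ => Real.log (Real.cosh x)) (Real.sinh z.re / Real.cosh z.re)
      z.re := (Real.hasDerivAt_cosh z.re).log (Real.cosh_pos _).ne'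
  have h4 := h3.comp_hasFDerivAt z h1
  have h5 : HasDerivAt (fun y : ℝ => ε * y ^ 2) (2 * ε * z.im) z.im := by
    refine ((hasDerivAt_pow 2 z.im).const_mul ε).congr_deriv ?_
    norm_num
    ring
  have h6 := h5.comp_hasFDerivAt z h2
  have h7 := h4.neg.sub h6
  refine h7.congr_fderiv ?_
  ext v
  simp
  ring

lemma sol_fderiv (ε : ℝ) : fderiv ℝ (sol ε) = fun z =>
    (-(Real.sinh z.re / Real.cosh z.re)) • Complex.reCLM + (-(2 * ε * z.im)) • Complex.imCLM :=
  funext fun z => (sol_hasFDerivAt ε z).fderiv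

lemma sol_fderiv2 (ε : ℝ) (z v w : ℂ) :
    fderiv ℝ (fderiv ℝ (sol ε)) z v w
      = -(1 / Real.cosh z.re ^ 2) * v.re * w.re - 2 * ε * v.im * w.im := by
  rw [sol_fderiv]
  have h1 : HasFDerivAt (fun z : ℂ => z.re) Complex.reCLM z := Complex.reCLM.hasFDerivAt
  have h2 : HasFDerivAt (fun z : ℂ => z.im) Complex.imCLM z := Complex.imCLM.hasFDerivAt
  have h3 : HasDerivAt (fun x : ℝ => -(Real.sinh x / Real.cosh x))
      (-(1 / Real.cosh z.re ^ 2)) z.re := by
    refine ((Real.hasDerivAt_sinh z.re).div (Real.hasDerivAt_cosh z.re)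
      (Real.cosh_pos _).ne').neg.congr_deriv ?_
    have hc : Real.cosh z.re ^ 2 = Real.sinh z.re ^ 2 + 1 := Real.cosh_sq z.re
    rw [show Real.cosh z.re * Real.cosh z.re - Real.sinh z.re * Real.sinh z.re
      = Real.cosh z.re ^ 2 - Real.sinh z.re ^ 2 by ring, hc]
    ring
  have h4 := (h3.comp_hasFDerivAt z h1).smul_const Complex.reCLM
  have h5 : HasDerivAt (fun y : ℝ => -(2 * ε * y)) (-(2 * ε)) z.im := by
    exact (((hasDerivAt_id z.im).const_mul (2 * ε)).neg).congr_deriv (by simp)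
  have h6 := (h5.comp_hasFDerivAt z h2).smul_const Complex.imCLM
  have h7 := (h4.add h6).fderiv
  have h8 : fderiv ℝ (fun z : ℂ =>
      (-(Real.sinh z.re / Real.cosh z.re)) • Complex.reCLM + (-(2 * ε * z.im)) • Complex.imCLM) z
      = _ := h7
  rw [h8]
  simp
  ring

lemma sol_laplacian (ε : ℝ) (z : ℂ) :
    Δ (sol ε) z = -(1 / Real.cosh z.re ^ 2) - 2 * ε := by
  rw [InnerProductSpace.laplacian_eq_iteratedFDeriv_complexPlane]
  simp only [iteratedFDeriv_two_apply]
  rw [sol_fderiv2, sol_fderiv2]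
  simp
  ring

lemma exp_sol (ε : ℝ) (z : ℂ) :
    Real.exp (sol ε z) = (Real.cosh z.re)⁻¹ * Real.exp (-ε * z.im ^ 2) := by
  unfold sol
  rw [sub_eq_add_neg, Real.exp_add, Real.exp_neg, Real.exp_log (Real.cosh_pos _)]
  congr 2
  ring

lemma exp_two_sol (ε : ℝ) (z : ℂ) :
    Real.exp (2 * sol ε z) = ((Real.cosh z.re) ^ 2)⁻¹ * Real.exp (-(2 * ε) * z.im ^ 2) := by
  rw [two_mul, Real.exp_add, exp_sol]
  rw [show -(2 * ε) * z.im ^ 2 = -ε * z.im ^ 2 + -ε * z.im ^ 2 by ring, Real.exp_add]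
  ring

lemma sol_super {ε : ℝ} (hε : 0 ≤ ε) (z : ℂ) :
    Δ (sol ε) z + Real.exp (2 * sol ε z) ≤ 0 := by
  rw [sol_laplacian, exp_two_sol]
  have h1 : Real.exp (-(2 * ε) * z.im ^ 2) ≤ 1 := by
    rw [Real.exp_le_one_iff]
    nlinarith [sq_nonneg z.im, mul_nonneg hε (sq_nonneg z.im)]
  have h2 : 0 ≤ ((Real.cosh z.re) ^ 2)⁻¹ := by positivity
  have h3 := mul_le_mul_of_nonneg_left h1 h2
  rw [one_div]
  linarith

/-- The weight in the horizontal direction for the area. -/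
noncomputable def wx (x : ℝ) : ℝ≥0∞ := ENNReal.ofReal ((Real.cosh x ^ 2)⁻¹)

/-- The weight in the vertical direction for the area. -/
noncomputable def wy (ε y : ℝ) : ℝ≥0∞ := ENNReal.ofReal (Real.exp (-(2 * ε) * y ^ 2))

lemma measurable_wx : Measurable wx := by
  unfold wx
  exact ENNReal.measurable_ofReal.comp ((Real.continuous_cosh.measurable.pow_const 2).inv)

lemma measurable_wy (ε : ℝ) : Measurable (wy ε) := by
  unfold wy
  fun_prop

lemma area_eq (ε : ℝ) (S : Set ℝ) (hS : MeasurableSet S) :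
    area (sol ε) {z | z.im ∈ S} = (∫⁻ x, wx x) * ∫⁻ y in S, wy ε y := by
  unfold area
  have hmeas : MeasurableSet {z : ℂ | z.im ∈ S} := Complex.measurable_im hS
  have hmp := Complex.volume_preserving_equiv_real_prod.symm
  rw [← lintegral_indicator hmeas]
  rw [← hmp.lintegral_comp_emb (Complex.measurableEquivRealProd.symm.measurableEmbedding)]
  rw [← lintegral_indicator hS]
  rw [← lintegral_prod_mul (μ := (volume : Measure ℝ)) (ν := (volume : Measure ℝ))
    (measurable_wx.aemeasurable) (((measurable_wy ε).indicator hS).aemeasurable)]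
  refine lintegral_congr fun p => ?_
  by_cases hp : p.2 ∈ S
  · have : Complex.measurableEquivRealProd.symm p ∈ {z : ℂ | z.im ∈ S} := by
      simpa using hp
    rw [indicator_of_mem this, indicator_of_mem hp, exp_two_sol, ENNReal.ofReal_mul (by positivity)]
    simp [wx, wy]
  · have : Complex.measurableEquivRealProd.symm p ∉ {z : ℂ | z.im ∈ S} := by
      simpa using hp
    rw [indicator_of_notMem this, indicator_of_notMem hp, mul_zero]

lemma lintegral_wy_Ioi {ε : ℝ} (hε : 0 < ε) :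
    ∫⁻ y in Ioi (0 : ℝ), wy ε y = ENNReal.ofReal (√(Real.pi / (2 * ε)) / 2) := by
  unfold wy
  rw [← integral_gaussian_Ioi, ofReal_integral_eq_lintegral_ofReal]
  · exact (integrable_exp_neg_mul_sq (by linarith)).integrableOn
  · exact ae_of_all _ fun _ => (Real.exp_pos _).le

lemma lintegral_wy_Iic {ε : ℝ} (hε : 0 < ε) :
    ∫⁻ y in Iic (0 : ℝ), wy ε y = ENNReal.ofReal (√(Real.pi / (2 * ε)) / 2) := by
  have h1 : ∫⁻ y in Iic (0 : ℝ), wy ε y = ∫⁻ y in Iio (0 : ℝ), wy ε y :=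
    setLIntegral_congr Iio_ae_eq_Iic.symm
  rw [h1, ← lintegral_wy_Ioi hε]
  have hmp : MeasurePreserving (fun x : ℝ => -x) volume volume := Measure.measurePreserving_neg _
  have h2 := hmp.setLIntegral_comp_preimage (s := Iio (0 : ℝ)) measurableSet_Iio
    (measurable_wy ε)
  rw [← h2]
  have h3 : (fun x : ℝ => -x) ⁻¹' Iio 0 = Ioi 0 := by ext; simp
  rw [h3]
  refine lintegral_congr fun y => ?_
  simp [wy]

lemma cosh_ge (x : ℝ) : (1 + x ^ 2) / 2 ≤ Real.cosh x := by
  have h1 : Real.cosh x = Real.cosh (x / 2) ^ 2 + Real.sinh (x / 2) ^ 2 := by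
    rw [← Real.cosh_two_mul]; ring_nf
  have h2 : Real.cosh (x / 2) ^ 2 = Real.sinh (x / 2) ^ 2 + 1 := Real.cosh_sq _
  have h3 : (x / 2) ^ 2 ≤ Real.sinh (x / 2) ^ 2 := by
    rw [sq_le_sq]
    rcases le_total 0 (x / 2) with h | h
    · rw [abs_of_nonneg h, abs_of_nonneg (Real.sinh_nonneg_iff.2 h)]
      exact Real.self_le_sinh_iff.2 h
    · rw [abs_of_nonpos h, abs_of_nonpos (Real.sinh_nonpos_iff.2 h)]
      linarith [Real.sinh_le_self_iff.2 h]
  rw [h1, h2]
  nlinarith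

lemma lintegral_sech_lt_top : ∫⁻ x : ℝ, ENNReal.ofReal ((Real.cosh x)⁻¹) < ⊤ := by
  have hint : Integrable fun x : ℝ => 2 * (1 + x ^ 2)⁻¹ := integrable_inv_one_add_sq.const_mul 2
  refine lt_of_le_of_lt (lintegral_mono fun x => ENNReal.ofReal_le_ofReal ?_)
    (hint.lintegral_lt_top)
  have h := cosh_ge x
  have hpos : 0 < (1 + x ^ 2) / 2 := by positivity
  calc (Real.cosh x)⁻¹ ≤ ((1 + x ^ 2) / 2)⁻¹ := inv_anti₀ hpos h
    _ = 2 * (1 + x ^ 2)⁻¹ := by rw [inv_div, div_eq_mul_inv]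

lemma lintegral_wx_lt_top : ∫⁻ x : ℝ, wx x < ⊤ := by
  refine lt_of_le_of_lt (lintegral_mono fun x => ENNReal.ofReal_le_ofReal ?_)
    lintegral_sech_lt_top
  have h1 : 1 ≤ Real.cosh x := Real.one_le_cosh x
  refine inv_anti₀ (by linarith) ?_
  nlinarith

lemma lintegral_wx_pos : 0 < ∫⁻ x : ℝ, wx x := by
  rw [lintegral_pos_iff_support measurable_wx]
  have : Function.support wx = univ := by
    ext x
    simp only [Function.mem_support, mem_univ, iff_true]
    unfold wx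
    have : 0 < (Real.cosh x ^ 2)⁻¹ := by positivity
    exact (ENNReal.ofReal_pos.2 this).ne'
  rw [this]
  simp

/-- The upper half plane. -/
def halfPlane : Set ℂ := {z | z.im ∈ Ioi (0 : ℝ)}

lemma halfPlane_compl : halfPlaneᶜ = {z : ℂ | z.im ∈ Iic (0 : ℝ)} := by
  ext z
  simp [halfPlane]

lemma frontier_halfPlane : frontier halfPlane = {z : ℂ | z.im = 0} := by
  have := Complex.frontier_setOfPred_lt_im 0
  simpa [halfPlane] using this

lemma smooth_halfPlane : IsSmoothDomain halfPlane := by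
  refine ⟨?_, ?_, ?_⟩
  · exact isOpen_Ioi.preimage Complex.continuous_im
  · have hconv : Convex ℝ halfPlane := by
      have := convex_halfSpace_im_gt 0
      simpa [halfPlane] using this
    exact ⟨⟨Complex.I, by simp [halfPlane]⟩, hconv.isPreconnected⟩
  · intro p hp
    refine ⟨univ, isOpen_univ, mem_univ _, fun z => z.im, Complex.imCLM.contDiff, ?_, ?_, ?_⟩
    · intro z _ h0
      have h1 : fderiv ℝ (fun z : ℂ => z.im) z = Complex.imCLM :=
        Complex.imCLM.hasFDerivAt.fderiv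
      rw [h1] at h0
      have := congrArg (fun f => f Complex.I) h0
      simp at this
    · intro z _
      rfl
    · intro z _
      rw [frontier_halfPlane]
      rfl

lemma boundaryLength_halfPlane (ε : ℝ) :
    boundaryLength (sol ε) halfPlane = ∫⁻ x : ℝ, ENNReal.ofReal ((Real.cosh x)⁻¹) := by
  unfold boundaryLength
  rw [frontier_halfPlane]
  have hiso : Isometry (fun x : ℝ => (x : ℂ)) := Complex.isometry_ofReal
  have hrange : {z : ℂ | z.im = 0} = range (fun x : ℝ => (x : ℂ)) := by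
    ext z
    constructor
    · intro h
      exact ⟨z.re, Complex.ext (by simp) (by simpa using h.symm)⟩
    · rintro ⟨x, rfl⟩
      simp
  rw [hrange, ← hiso.map_hausdorffMeasure (Or.inl zero_le_one), hausdorffMeasure_real]
  rw [(hiso.isClosedEmbedding.measurableEmbedding).lintegral_map]
  refine lintegral_congr fun x => ?_
  rw [exp_sol]
  simp

/-- **The conformal Lévy–Gromov inequality for Liouville supersolutions fails**, and no inequality
`C L(Ω)² ≥ A(Ω) A(ℝ² ∖ Ω)` holds, whatever the constant `C`.  The total area of a Liouville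
supersolution of finite area is not bounded by any absolute constant either. -/
theorem result : ∀ C : ℝ≥0, ∃ u : ℂ → ℝ, ContDiff ℝ ∞ u ∧
    (∀ z, Δ u z + Real.exp (2 * u z) ≤ 0) ∧ area u univ < ⊤ ∧ C < area u univ ∧
    ∃ Ω : Set ℂ, IsSmoothDomain Ω ∧ C * boundaryLength u Ω ^ 2 < area u Ω * area u Ωᶜ := by
  intro C
  set I := ∫⁻ x : ℝ, ENNReal.ofReal ((Real.cosh x)⁻¹) with hI
  set J := ∫⁻ x : ℝ, wx x with hJ
  have hIt : I ≠ ⊤ := lintegral_sech_lt_top.ne
  have hJt : J ≠ ⊤ := lintegral_wx_lt_top.ne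
  have hJ0 : J ≠ 0 := lintegral_wx_pos.ne'
  have hJr : 0 < J.toReal := ENNReal.toReal_pos hJ0 hJt
  -- choose `ε`
  set M : ℝ := C * I.toReal ^ 2 with hM
  have hM0 : 0 ≤ M := by positivity
  set ε : ℝ := J.toReal ^ 2 * Real.pi / (8 * (M + 1 + (C : ℝ) ^ 2)) with hε
  have hε0 : 0 < ε := by positivity
  have key0 : (J.toReal * (√(Real.pi / (2 * ε)) / 2)) ^ 2 = M + 1 + (C : ℝ) ^ 2 := by
    rw [mul_pow, div_pow, Real.sq_sqrt (by positivity)]
    rw [hε]
    field_simp
    ring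
  have key : M < (J.toReal * (√(Real.pi / (2 * ε)) / 2)) ^ 2 := by
    rw [key0]
    nlinarith [sq_nonneg (C : ℝ)]
  have key2 : (C : ℝ) < J.toReal * (√(Real.pi / (2 * ε)) / 2) := by
    refine lt_of_pow_lt_pow_left₀ 2 (by positivity) ?_
    rw [key0]
    linarith
  have hA : area (sol ε) {z : ℂ | z.im ∈ Ioi (0 : ℝ)}
      = ENNReal.ofReal (J.toReal * (√(Real.pi / (2 * ε)) / 2)) := by
    rw [area_eq _ _ measurableSet_Ioi, lintegral_wy_Ioi hε0, ← hJ,
      ENNReal.ofReal_mul hJr.le, ENNReal.ofReal_toReal hJt]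
  have hB : area (sol ε) {z : ℂ | z.im ∈ Iic (0 : ℝ)}
      = ENNReal.ofReal (J.toReal * (√(Real.pi / (2 * ε)) / 2)) := by
    rw [area_eq _ _ measurableSet_Iic, lintegral_wy_Iic hε0, ← hJ,
      ENNReal.ofReal_mul hJr.le, ENNReal.ofReal_toReal hJt]
  refine ⟨sol ε, sol_contDiff ε, sol_super hε0.le, ?_, ?_, halfPlane, smooth_halfPlane, ?_⟩
  · have h1 : (univ : Set ℂ) = halfPlane ∪ {z : ℂ | z.im ∈ Iic (0 : ℝ)} := by
      rw [← halfPlane_compl, union_compl_self]
    have h2 : area (sol ε) univ ≤ area (sol ε) halfPlane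
        + area (sol ε) {z : ℂ | z.im ∈ Iic (0 : ℝ)} := by
      rw [h1]
      exact lintegral_union_le _ _ _
    refine lt_of_le_of_lt h2 ?_
    rw [halfPlane, hA, hB]
    exact ENNReal.add_lt_top.2 ⟨ENNReal.ofReal_lt_top, ENNReal.ofReal_lt_top⟩
  · have h3 : area (sol ε) {z : ℂ | z.im ∈ Ioi (0 : ℝ)} ≤ area (sol ε) univ := by
      unfold area
      exact lintegral_mono_set (subset_univ _)
    refine lt_of_lt_of_le ?_ h3
    rw [hA, ← ENNReal.ofReal_coe_nnreal]
    exact (ENNReal.ofReal_lt_ofReal_iff_of_nonneg C.coe_nonneg).2 key2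
  · rw [boundaryLength_halfPlane, halfPlane_compl, halfPlane, hA, hB, ← hI]
    have e1 : (C : ℝ≥0∞) * I ^ 2 = ENNReal.ofReal M := by
      rw [hM, ENNReal.ofReal_mul C.coe_nonneg, ENNReal.ofReal_coe_nnreal,
        ENNReal.ofReal_pow ENNReal.toReal_nonneg, ENNReal.ofReal_toReal hIt]
    rw [e1, ← sq, ← ENNReal.ofReal_pow (by positivity)]
    exact (ENNReal.ofReal_lt_ofReal_iff_of_nonneg hM0).2 key

end Pool.Agent.Results.MP_c070b6_an.LevyGromovFails
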